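import Pool.Agent.helper73.TF.Spec

/-!
# Project tf, row CVR: the closure of the orbit of a product of factors is countable
-/

set_option autoImplicit false

namespace Pool.Agent.TF

open Matrix Pool.Agent.H48SL
open scoped Pointwise

theorem CVR_cm_mul {n : ℕ} (g h : SLZ n) : cm (g * h) = cm g * cm h := by
  show ((g * h : SLZ n) : Matrix (Fin n) (Fin n) ℤ).map (Int.castRingHom ℂ) =
    (g : Matrix (Fin n) (Fin n) ℤ).map (Int.castRingHom ℂ) *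
      (h : Matrix (Fin n) (Fin n) ℤ).map (Int.castRingHom ℂ)
  have e : ((g * h : SLZ n) : Matrix (Fin n) (Fin n) ℤ) =
      (g : Matrix (Fin n) (Fin n) ℤ) * (h : Matrix (Fin n) (Fin n) ℤ) :=
    Matrix.SpecialLinearGroup.coe_mul g h
  rw [e]
  exact Matrix.map_mul

theorem CVR_inv {n : ℕ} (g : SLZ n) :
    ((g⁻¹ : SLZ n) : Matrix (Fin n) (Fin n) ℤ) * (g : Matrix (Fin n) (Fin n) ℤ) = 1 := by
  have e : ((g⁻¹ * g : SLZ n) : Matrix (Fin n) (Fin n) ℤ) =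
      ((g⁻¹ : SLZ n) : Matrix (Fin n) (Fin n) ℤ) * (g : Matrix (Fin n) (Fin n) ℤ) :=
    Matrix.SpecialLinearGroup.coe_mul g⁻¹ g
  rw [← e, inv_mul_cancel]
  exact Matrix.SpecialLinearGroup.coe_one

theorem CVR_cm_one {n : ℕ} : cm (1 : SLZ n) = 1 := by
  have e : ((1 : SLZ n) : Matrix (Fin n) (Fin n) ℤ) = 1 := Matrix.SpecialLinearGroup.coe_one
  unfold cm
  rw [e]
  exact Matrix.map_one _ Int.cast_zero Int.cast_one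

theorem CVR_cm_ne {n : ℕ} (g : SLZ n) {x : Fin n → ℂ} (hx : x ≠ 0) : cm g *ᵥ x ≠ 0 := by
  intro h
  apply hx
  have h1 : cm g⁻¹ *ᵥ (cm g *ᵥ x) = x := by
    rw [mulVec_mulVec, ← CVR_cm_mul, inv_mul_cancel, CVR_cm_one, one_mulVec]
  rw [← h1, h, mulVec_zero]

theorem CVR_tv {n : ℕ} {z : SLZ n} (h : IsTv z) (g : SLZ n) : IsTv (g * z * g⁻¹) := by
  obtain ⟨v, f, hv, hf, hd, he⟩ := h
  refine ⟨(g : Matrix (Fin n) (Fin n) ℤ) *ᵥ v,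
    f ᵥ* ((g⁻¹ : SLZ n) : Matrix (Fin n) (Fin n) ℤ), ?_, ?_, ?_, ?_⟩
  · intro h0
    apply hv
    have h1 : ((g⁻¹ : SLZ n) : Matrix (Fin n) (Fin n) ℤ) *ᵥ ((g : Matrix (Fin n) (Fin n) ℤ) *ᵥ v) = v := by
      rw [mulVec_mulVec, CVR_inv, one_mulVec]
    rw [← h1, h0, mulVec_zero]
  · intro h0
    apply hf
    have h1 : (f ᵥ* ((g⁻¹ : SLZ n) : Matrix (Fin n) (Fin n) ℤ)) ᵥ* (g : Matrix (Fin n) (Fin n) ℤ) = f := by
      rw [vecMul_vecMul, CVR_inv, vecMul_one]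
    rw [← h1, h0, zero_vecMul]
  · rw [vecMul_inv_dot, hd]
  · rw [he, tv_conj hd]

theorem CVR_word {n r : ℕ} (z : Fin r → SLZ n) (a : Fin r → ℤ) (g : SLZ n) :
    g * word z a = word (fun i => g * z i * g⁻¹) a * g := by
  have h : word (fun i => g * z i * g⁻¹) a = g * word z a * g⁻¹ := by
    unfold word
    have h1 : g * (List.ofFn fun i => z i ^ a i).prod * g⁻¹ =
        MulAut.conj g (List.ofFn fun i => z i ^ a i).prod := (MulAut.conj_apply _ _).symm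
    rw [h1, map_list_prod, List.map_ofFn]
    congr 2
    funext i
    rw [Function.comp_apply, MulAut.conj_apply, conj_zpow]
  rw [h, inv_mul_cancel_right]

theorem CVR_word_cons {n r : ℕ} (z0 : SLZ n) (b : ℤ) (z : Fin r → SLZ n) (a : Fin r → ℤ) :
    z0 ^ b * word z a = word (Fin.cons z0 z : Fin (r + 1) → SLZ n) (Fin.cons b a : Fin (r + 1) → ℤ) := by
  unfold word
  rw [List.ofFn_succ, List.prod_cons]
  rfl

/-- The set `S` is covered by finitely many orbits of words. -/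
def CVR_Cov {n : ℕ} (H : Subgroup (SLZ n)) (S : Set (Matrix (Fin n) (Fin n) ℂ)) : Prop :=
  ∃ F : Set (Σ r : ℕ, (Fin r → SLZ n) × (Fin n → ℂ)), F.Finite ∧
    (∀ t ∈ F, (∀ i, t.2.1 i ∈ H ∧ IsTv (t.2.1 i)) ∧ t.2.2 ≠ 0) ∧
    ∀ M ∈ S, ∃ t ∈ F, ∃ a : Fin t.1 → ℤ, M = pr (cm (word t.2.1 a) *ᵥ t.2.2)

theorem CVR_cl (hCLO : CLO_stmt) (hCNT : CNT_stmt) {n : ℕ} {H : Subgroup (SLZ n)} (hR : Rk H)
    {S : Set (Matrix (Fin n) (Fin n) ℂ)} (h : CVR_Cov H S) : (closure S).Countable := by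
  obtain ⟨F, hF, h1, h2⟩ := h
  have h3 : S ⊆ ⋃ t ∈ F, Set.range fun a : Fin t.1 → ℤ => pr (cm (word t.2.1 a) *ᵥ t.2.2) := by
    intro M hM
    obtain ⟨t, ht, a, ha⟩ := h2 M hM
    exact Set.mem_biUnion ht ⟨a, ha.symm⟩
  have h4 : closure S ⊆ ⋃ t ∈ F, KK t.2.2 := by
    refine (closure_mono h3).trans ?_
    rw [hF.closure_biUnion]
    refine Set.iUnion₂_mono fun t ht => ?_
    exact hCLO n H hR t.1 t.2.1 (h1 t ht).1 t.2.2 (h1 t ht).2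
  exact (hF.countable.biUnion fun t _ => hCNT n t.2.2).mono h4

theorem CVR_tr (hPRC : PRC_stmt) {n : ℕ} (g h u : SLZ n) {x y : Fin n → ℂ} (hx : x ≠ 0) (hy : y ≠ 0)
    (he : pr (cm h *ᵥ x) = pr (cm u *ᵥ y)) : pr (cm (g * h) *ᵥ x) = pr (cm (g * u) *ᵥ y) := by
  obtain ⟨-, h2, h3⟩ := hPRC n
  obtain ⟨c, hc, hcy⟩ := h3 _ _ (CVR_cm_ne h hx) (CVR_cm_ne u hy) he
  rw [CVR_cm_mul, CVR_cm_mul, ← mulVec_mulVec, ← mulVec_mulVec, hcy, mulVec_smul, h2 c _ hc]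

theorem CVR_step (hVCY : VCY_stmt) (hPRC : PRC_stmt) {n : ℕ} {H : Subgroup (SLZ n)} (hR : Rk H)
    {X : Set (SLZ n)} (hX : Fac H X) (T : Set (SLZ n)) {x : Fin n → ℂ} (hx : x ≠ 0)
    (h : CVR_Cov H {M | ∃ g ∈ T, M = pr (cm g *ᵥ x)}) :
    CVR_Cov H {M | ∃ g ∈ X * T, M = pr (cm g *ᵥ x)} := by
  obtain ⟨F, hF, h1, h2⟩ := h
  obtain ⟨hXH, hX | ⟨P, rfl, hP, z0, hz0, hz0t⟩⟩ := hX
  · refine ⟨(fun p : SLZ n × (Σ r : ℕ, (Fin r → SLZ n) × (Fin n → ℂ)) =>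
      (⟨p.2.1, (fun i => p.1 * p.2.2.1 i * p.1⁻¹, cm p.1 *ᵥ p.2.2.2)⟩ :
        Σ r : ℕ, (Fin r → SLZ n) × (Fin n → ℂ))) '' (X ×ˢ F), (hX.prod hF).image _, ?_, ?_⟩
    · rintro _ ⟨⟨g, t⟩, ⟨hg, ht⟩, rfl⟩
      obtain ⟨h3, h4⟩ := h1 t ht
      refine ⟨fun i => ⟨?_, CVR_tv (h3 i).2 g⟩, CVR_cm_ne g h4⟩
      exact H.mul_mem (H.mul_mem (hXH hg) (h3 i).1) (H.inv_mem (hXH hg))
    · rintro M ⟨_, ⟨g, hg, k, hk, rfl⟩, rfl⟩
      obtain ⟨t, ht, a, ha⟩ := h2 (pr (cm k *ᵥ x)) ⟨k, hk, rfl⟩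
      refine ⟨_, ⟨⟨g, t⟩, ⟨hg, ht⟩, rfl⟩, a, ?_⟩
      have e := CVR_tr hPRC g k (word t.2.1 a) hx (h1 t ht).2 ha
      show pr (cm (g * k) *ᵥ x) = _
      rw [e, CVR_word, CVR_cm_mul, ← mulVec_mulVec]
  · obtain ⟨F0, hF0, hF0P, hF0c⟩ := hVCY n H hR P hXH hP z0 hz0 hz0t
    refine ⟨(fun p : SLZ n × (Σ r : ℕ, (Fin r → SLZ n) × (Fin n → ℂ)) =>
      (⟨p.2.1 + 1, ((Fin.cons z0 (fun i => p.1 * p.2.2.1 i * p.1⁻¹) : Fin (p.2.1 + 1) → SLZ n),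
        cm p.1 *ᵥ p.2.2.2)⟩ :
        Σ r : ℕ, (Fin r → SLZ n) × (Fin n → ℂ))) '' (F0 ×ˢ F), (hF0.prod hF).image _, ?_, ?_⟩
    · rintro _ ⟨⟨g, t⟩, ⟨hg, ht⟩, rfl⟩
      obtain ⟨h3, h4⟩ := h1 t ht
      have hgH : g ∈ H := hXH (hF0P hg)
      refine ⟨?_, CVR_cm_ne g h4⟩
      intro i
      refine Fin.cases ?_ (fun j => ?_) i
      · exact ⟨hXH hz0, hz0t⟩
      · exact ⟨H.mul_mem (H.mul_mem hgH (h3 j).1) (H.inv_mem hgH), CVR_tv (h3 j).2 g⟩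
    · rintro M ⟨_, ⟨g, hg, k, hk, rfl⟩, rfl⟩
      obtain ⟨t, ht, a, ha⟩ := h2 (pr (cm k *ᵥ x)) ⟨k, hk, rfl⟩
      obtain ⟨b, c, hc, hgc⟩ := hF0c g hg
      refine ⟨_, ⟨⟨c, t⟩, ⟨hc, ht⟩, rfl⟩, (Fin.cons b a : Fin (t.1 + 1) → ℤ), ?_⟩
      have e := CVR_tr hPRC g k (word t.2.1 a) hx (h1 t ht).2 ha
      show pr (cm (g * k) *ᵥ x) = pr (cm (word (Fin.cons z0 (fun i => c * t.2.1 i * c⁻¹) :
        Fin (t.1 + 1) → SLZ n) (Fin.cons b a : Fin (t.1 + 1) → ℤ)) *ᵥ (cm c *ᵥ t.2.2))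
      rw [e, hgc, mul_assoc, CVR_word, ← mul_assoc, CVR_word_cons, CVR_cm_mul, ← mulVec_mulVec]

theorem CVR (hVCY : VCY_stmt) (hCLO : CLO_stmt) (hCNT : CNT_stmt) (hPRC : PRC_stmt) : CVR_stmt := by
  intro n H hR Xs hXs A hA x hx hfin
  refine CVR_cl hCLO hCNT hR ?_
  induction Xs with
  | nil =>
    rw [List.prod_nil, one_mul]
    have hch : ∀ M : Matrix (Fin n) (Fin n) ℂ, ∃ g : SLZ n,
        M ∈ {M | ∃ g ∈ A, M = pr (cm g *ᵥ x)} → g ∈ A ∧ M = pr (cm g *ᵥ x) := by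
      intro M
      by_cases h : M ∈ {M | ∃ g ∈ A, M = pr (cm g *ᵥ x)}
      · obtain ⟨g, hg, he⟩ := h
        exact ⟨g, fun _ => ⟨hg, he⟩⟩
      · exact ⟨1, fun h' => absurd h' h⟩
    choose G hG using hch
    refine ⟨(fun M : Matrix (Fin n) (Fin n) ℂ =>
      (⟨0, (fun i => i.elim0, cm (G M) *ᵥ x)⟩ : Σ r : ℕ, (Fin r → SLZ n) × (Fin n → ℂ))) ''
        {M | ∃ g ∈ A, M = pr (cm g *ᵥ x)}, hfin.image _, ?_, ?_⟩
    · rintro _ ⟨M, hM, rfl⟩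
      exact ⟨fun i => i.elim0, CVR_cm_ne _ hx⟩
    · intro M hM
      refine ⟨_, ⟨M, hM, rfl⟩, fun i => i.elim0, ?_⟩
      have h0 : word (fun i : Fin 0 => (i.elim0 : SLZ n)) (fun i : Fin 0 => (i.elim0 : ℤ)) = 1 := by
        unfold word
        rw [List.ofFn_zero, List.prod_nil]
      show M = pr (cm (word (fun i : Fin 0 => (i.elim0 : SLZ n)) (fun i : Fin 0 => (i.elim0 : ℤ))) *ᵥ
        (cm (G M) *ᵥ x))
      rw [h0, CVR_cm_one, one_mulVec]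
      exact (hG M hM).2
  | cons X Xs ih =>
    rw [List.prod_cons, mul_assoc]
    exact CVR_step hVCY hPRC hR (hXs X List.mem_cons_self) (Xs.prod * A) hx
      (ih fun Y hY => hXs Y (List.mem_cons_of_mem _ hY))

end Pool.Agent.TF
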